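import Pool.Agent.helper41.NU.A1
import Pool.Agent.helper41.NU.A2
import Pool.Agent.helper70.NU.A7
import Pool.Agent.helper69.NU.B1
import Pool.Agent.helper51.NU.B3
import Pool.Agent.helper54.NU.D1

set_option autoImplicit false

/-! Module D2 of MP_737c0a_gt (plan of helper63): the Fubini-Study weight is positive. -/

open MeasureTheory Filter Topology Set
open scoped ContDiff Manifold Matrix ENNReal ComplexOrder

noncomputable section

namespace Pool.Agent.helper63.NU

theorem D2_psd {n : ℕ} {Θ : Matrix (Fin n) (Fin n) ℂ} (hh : Θ.IsHermitian)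
    (h : ∀ v : Fin n → ℂ, 0 ≤ (∑ j, ∑ k, Θ j k * v j * (starRingEnd ℂ) (v k)).re) :
    Θ.PosSemidef := by
  refine Matrix.PosSemidef.of_dotProduct_mulVec_nonneg hh fun x => ?_
  have h1 : star x ⬝ᵥ (Θ *ᵥ x)
      = ∑ j, ∑ k, Θ j k * (starRingEnd ℂ) (x j) * (starRingEnd ℂ) ((starRingEnd ℂ) (x k)) := by
    simp only [dotProduct, Matrix.mulVec, Pi.star_apply, Finset.mul_sum, Complex.conj_conj,
      RCLike.star_def]
    refine Finset.sum_congr rfl fun j _ => Finset.sum_congr rfl fun k _ => ?_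
    ring
  have h2 := h fun j => (starRingEnd ℂ) (x j)
  rw [← h1] at h2
  rw [Complex.le_def]
  refine ⟨by simpa using h2, ?_⟩
  have h3 := hh.im_star_dotProduct_mulVec_self x
  simpa using h3.symm

variable {n : ℕ} {M : Type*} [TopologicalSpace M] [ChartedSpace (E n) M]
  [IsManifold 𝓘(ℂ, E n) ω M]

theorem D2_Sw_pos {φ : Fam n M ℝ} (hφ : IsPos 1 φ) {k N : ℕ} {s : Fin N → Fam n M ℂ}
    (hs : ∀ j, IsHol k (s j)) (hne : ∀ x, 0 < ∑ j, nrm k φ (s j) x) (w : Fin N → ℝ)
    {e : Ch n M} (he : e ∈ atlas (E n) M) {y : E n} (hy : y ∈ e.target) :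
    0 < Sw (fun j => s j e) w y := by
  let _ : MeasurableSpace M := borel M
  have _ : BorelSpace M := ⟨rfl⟩
  have hx := e.map_target hy
  have h1 := hne (e.symm y)
  have h2 : ∀ j, nrm k φ (s j) (e.symm y) = ‖s j e y‖ ^ 2 * Real.exp (-(k * φ e y)) := by
    intro j
    rw [nrm_eq hφ.toIsWeight (hs j).toIsSec he hx, e.right_inv hy]
  simp only [h2] at h1
  obtain ⟨j, -, hj⟩ := Finset.exists_lt_of_sum_lt
    (show ∑ _j : Fin N, (0 : ℝ) < ∑ j, ‖s j e y‖ ^ 2 * Real.exp (-(k * φ e y)) by simpa using h1)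
  have h3 : 0 < ‖s j e y‖ ^ 2 := (pos_iff_pos_of_mul_pos hj).2 (Real.exp_pos _)
  refine Finset.sum_pos' (fun i _ => by positivity) ⟨j, Finset.mem_univ _, by positivity⟩

theorem D2_Sw_smooth {k N : ℕ} {s : Fin N → Fam n M ℂ}
    (hs : ∀ j, IsHol k (s j)) (w : Fin N → ℝ) {e : Ch n M} (he : e ∈ atlas (E n) M) :
    ContDiffOn ℝ ∞ (Sw (fun j => s j e) w) e.target := by
  unfold Sw
  refine ContDiffOn.sum fun j _ => contDiffOn_const.mul ?_
  exact ((hs j).smooth e he).norm_sq ℝ

/-- Module D2: the weight `(1-kθ) φ + θ log ∑ e^{w_j} |s_j|²` -/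
theorem fs_isPos {φ : Fam n M ℝ} (hφ : IsPos 1 φ) {k N : ℕ} {s : Fin N → Fam n M ℂ}
    (hs : ∀ j, IsHol k (s j)) (hne : ∀ x, 0 < ∑ j, nrm k φ (s j) x) {θ : ℝ} (hθ : 0 < θ)
    (hθk : θ * k < 1) (w : Fin N → ℝ) :
    IsPos 1 (fun e y => (1 - k * θ) * φ e y + θ * Real.log (Sw (fun j => s j e) w y) : Fam n M ℝ) := by
  have hpos := fun {e : Ch n M} (he : e ∈ atlas (E n) M) {y : E n} (hy : y ∈ e.target) =>
    D2_Sw_pos hφ hs hne w he hy
  have hlog : ∀ e ∈ atlas (E n) M,
      ContDiffOn ℝ ∞ (fun y => Real.log (Sw (fun j => s j e) w y)) e.target := fun e he =>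
    (D2_Sw_smooth hs w he).log fun y hy => (hpos he hy).ne'
  refine ⟨⟨fun e he => ?_, fun e he e' he' x hx => ?_⟩, fun e he y hy => ?_⟩
  · exact (contDiffOn_const.mul (hφ.smooth e he)).add (contDiffOn_const.mul (hlog e he))
  · have hJ : jac e e' (e x) ≠ 0 := jac_ne_zero he he' hx.1 hx.2
    have hJ2 : 0 < ‖jac e e' (e x)‖ ^ 2 := by positivity
    have h1 : Sw (fun j => s j e') w (e' x)
        = (‖jac e e' (e x)‖ ^ 2) ^ k * Sw (fun j => s j e) w (e x) := by
      unfold Sw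
      rw [Finset.mul_sum]
      refine Finset.sum_congr rfl fun j _ => ?_
      simp only [(hs j).trans e he e' he' x hx, norm_mul, norm_pow]
      ring
    have h2 := hpos he (e.map_source hx.1)
    have h3 : Real.log (Sw (fun j => s j e') w (e' x))
        = k * Real.log (‖jac e e' (e x)‖ ^ 2) + Real.log (Sw (fun j => s j e) w (e x)) := by
      rw [h1, Real.log_mul (by positivity) h2.ne', Real.log_pow]
    have h4 := hφ.trans e he e' he' x hx
    rw [h3, h4]
    push_cast
    ring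
  · have hmem := e.open_target.mem_nhds hy
    have c1 : ContDiffAt ℝ 2 (φ e) y := ((hφ.smooth e he).contDiffAt hmem).of_le (by norm_cast)
    have c2 : ContDiffAt ℝ 2 (fun y => Real.log (Sw (fun j => s j e) w y)) y :=
      ((hlog e he).contDiffAt hmem).of_le (by norm_cast)
    have h1 : lev (fun y => (1 - k * θ) * φ e y + θ * Real.log (Sw (fun j => s j e) w y)) y
        = ((1 - k * θ : ℝ) : ℂ) • lev (φ e) y
          + ((θ : ℝ) : ℂ) • lev (fun y => Real.log (Sw (fun j => s j e) w y)) y := by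
      rw [lev_add (contDiffAt_const.mul c1) (contDiffAt_const.mul c2), lev_const_mul _ c1,
        lev_const_mul _ c2]
    rw [h1]
    have h2 : (lev (fun y => Real.log (Sw (fun j => s j e) w y)) y).PosSemidef := by
      refine D2_psd (lev_herm c2) fun v => ?_
      exact (levi_ineq e.open_target (fun j => (hs j).hol e he) (a := fun _ => 0) hy
        (hpos he hy) v).1
    have h3 : (0 : ℂ) < ((1 - k * θ : ℝ) : ℂ) := by
      rw [Complex.zero_lt_real]
      linarith
    have h4 : (0 : ℂ) ≤ ((θ : ℝ) : ℂ) := by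
      rw [Complex.zero_le_real]
      exact hθ.le
    exact ((hφ.pos e he y hy).smul h3).add_posSemidef (h2.smul h4)

end Pool.Agent.helper63.NU
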