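import Pool.Agent.helper41.NU.A1
import Pool.Agent.helper41.NU.A2
import Pool.Agent.helper41.NU.A3
import Pool.Agent.helper69.NU.B1
import Pool.Agent.helper69.NU.B2
import Pool.Agent.helper51.NU.B3
import Pool.Agent.helper80.NU.B4

set_option autoImplicit false

/-! Module H1 of MP_737c0a_gt (plan of helper63): divergence of cofactors, integral of a Laplacian. -/

open MeasureTheory Filter Topology Set
open scoped ContDiff Manifold Matrix ENNReal ComplexOrder

noncomputable section

namespace Pool.Agent.helper63.NU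

section Local

variable {n : ℕ}

theorem H1_diff_prod {ι : Type*} (s : Finset ι) {f : ι → E n → ℂ} {y : E n}
    (hf : ∀ i ∈ s, DifferentiableAt ℝ (f i) y) :
    DifferentiableAt ℝ (fun z => ∏ i ∈ s, f i z) y := by
  classical
  induction s using Finset.induction_on with
  | empty => simp
  | insert a s ha ih =>
    have h1 : (fun z => ∏ i ∈ insert a s, f i z) = fun z => f a z * ∏ i ∈ s, f i z := by
      funext z; rw [Finset.prod_insert ha]
    rw [h1]
    exact (hf a (Finset.mem_insert_self a s)).mul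
      (ih fun i hi => hf i (Finset.mem_insert_of_mem hi))

theorem H1_dz_prod {ι : Type*} [DecidableEq ι] (s : Finset ι) {f : ι → E n → ℂ} {y : E n}
    (hf : ∀ i ∈ s, DifferentiableAt ℝ (f i) y) (j : Fin n) :
    dz j (fun z => ∏ i ∈ s, f i z) y = ∑ i ∈ s, (∏ l ∈ s.erase i, f l y) * dz j (f i) y := by
  induction s using Finset.induction_on with
  | empty => simp [dz_const]
  | insert a s ha ih =>
    have h1 : (fun z => ∏ i ∈ insert a s, f i z) = fun z => f a z * ∏ i ∈ s, f i z := by
      funext z; rw [Finset.prod_insert ha]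
    have hs : ∀ i ∈ s, DifferentiableAt ℝ (f i) y := fun i hi => hf i (Finset.mem_insert_of_mem hi)
    rw [h1, dz_mul (hf a (Finset.mem_insert_self a s)) (H1_diff_prod s hs), ih hs,
      Finset.sum_insert ha, Finset.erase_insert ha, Finset.mul_sum]
    have h2 : ∀ i ∈ s, f a y * ((∏ l ∈ s.erase i, f l y) * dz j (f i) y)
        = (∏ l ∈ (insert a s).erase i, f l y) * dz j (f i) y := by
      intro i hi
      have hne : a ≠ i := fun h => ha (h ▸ hi)
      rw [Finset.erase_insert_of_ne hne, Finset.prod_insert, mul_assoc]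
      exact fun h => ha (Finset.mem_of_mem_erase h)
    rw [Finset.sum_congr rfl h2]
    ring

theorem H1_dz_det {A : E n → Matrix (Fin n) (Fin n) ℂ} {y : E n}
    (hA : ∀ a b, DifferentiableAt ℝ (fun z => A z a b) y) (j : Fin n) :
    dz j (fun z => (A z).det) y
      = ∑ k, ∑ a, (A y).adjugate k a * dz j (fun z => A z a k) y := by
  have h1 : (fun z => (A z).det) = fun z => ∑ σ : Equiv.Perm (Fin n),
      ((Equiv.Perm.sign σ : ℤ) : ℂ) * ∏ i, A z (σ i) i := by
    funext z; rw [Matrix.det_apply']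
  have hd : ∀ σ : Equiv.Perm (Fin n), DifferentiableAt ℝ (fun z => ∏ i, A z (σ i) i) y :=
    fun σ => H1_diff_prod Finset.univ fun i _ => hA (σ i) i
  rw [h1, dz_sum Finset.univ fun σ _ => (hd σ).const_mul _]
  have h2 : ∀ k : Fin n, ∑ a, (A y).adjugate k a * dz j (fun z => A z a k) y
      = ∑ σ : Equiv.Perm (Fin n), ((Equiv.Perm.sign σ : ℤ) : ℂ) *
        ((∏ l ∈ Finset.univ.erase k, A y (σ l) l) * dz j (fun z => A z (σ k) k) y) := by
    intro k
    have h3 : ∑ a, (A y).adjugate k a * dz j (fun z => A z a k) y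
        = Matrix.cramer (A y) (fun a => dz j (fun z => A z a k) y) k := by
      rw [Matrix.cramer_eq_adjugate_mulVec]
      rfl
    rw [h3, Matrix.cramer_apply, Matrix.det_apply']
    refine Finset.sum_congr rfl fun σ _ => ?_
    congr 1
    rw [← Finset.mul_prod_erase Finset.univ _ (Finset.mem_univ k), mul_comm]
    congr 1
    · refine Finset.prod_congr rfl fun l hl => ?_
      rw [Matrix.updateCol_ne (Finset.ne_of_mem_erase hl)]
    · rw [Matrix.updateCol_self]
  rw [Finset.sum_congr rfl fun k _ => h2 k, Finset.sum_comm]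
  refine Finset.sum_congr rfl fun σ _ => ?_
  rw [dz_const_mul, H1_dz_prod Finset.univ fun i _ => hA (σ i) i, Finset.mul_sum]

/-- derivative of the inverse matrix -/
theorem H1_dz_inv {A : E n → Matrix (Fin n) (Fin n) ℂ} {y : E n}
    (hA : ∀ a b, DifferentiableAt ℝ (fun z => A z a b) y)
    (hR : ∀ a b, DifferentiableAt ℝ (fun z => (A z)⁻¹ a b) y)
    (hdet : ∀ᶠ z in 𝓝 y, IsUnit (A z).det) (j k c : Fin n) :
    dz j (fun z => (A z)⁻¹ k c) y
      = -∑ a, ∑ b, (A y)⁻¹ k a * dz j (fun z => A z a b) y * (A y)⁻¹ b c := by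
  have hy : IsUnit (A y).det := hdet.self_of_nhds
  have h1 : ∀ a, ∑ b, (dz j (fun z => A z a b) y * (A y)⁻¹ b c
      + A y a b * dz j (fun z => (A z)⁻¹ b c) y) = 0 := by
    intro a
    have h2 : (fun z => ∑ b, A z a b * (A z)⁻¹ b c) =ᶠ[𝓝 y] fun _ => (1 : Matrix (Fin n) (Fin n) ℂ) a c := by
      filter_upwards [hdet] with z hz
      rw [← Matrix.mul_nonsing_inv (A z) hz, Matrix.mul_apply]
    have h3 := dz_congr h2 j
    rw [dz_const, dz_sum (f := fun b z => A z a b * (A z)⁻¹ b c) Finset.univ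
      fun b _ => (hA a b).mul (hR b c)] at h3
    rw [← h3]
    exact Finset.sum_congr rfl fun b _ => (dz_mul (hA a b) (hR b c) j).symm
  have h4 : ∀ a, ∑ b, A y a b * dz j (fun z => (A z)⁻¹ b c) y
      = -∑ b, dz j (fun z => A z a b) y * (A y)⁻¹ b c := by
    intro a
    have := h1 a
    rw [Finset.sum_add_distrib] at this
    linear_combination this
  have h5 : dz j (fun z => (A z)⁻¹ k c) y
      = ∑ a, (A y)⁻¹ k a * ∑ b, A y a b * dz j (fun z => (A z)⁻¹ b c) y := by
    have h6 : ∀ b, ∑ a, (A y)⁻¹ k a * A y a b = (1 : Matrix (Fin n) (Fin n) ℂ) k b := by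
      intro b
      rw [← Matrix.nonsing_inv_mul (A y) hy, Matrix.mul_apply]
    calc dz j (fun z => (A z)⁻¹ k c) y
        = ∑ b, (1 : Matrix (Fin n) (Fin n) ℂ) k b * dz j (fun z => (A z)⁻¹ b c) y := by
          rw [Finset.sum_eq_single k]
          · simp
          · intro b _ hb
            rw [Matrix.one_apply_ne (Ne.symm hb), zero_mul]
          · simp
      _ = ∑ b, ∑ a, (A y)⁻¹ k a * (A y a b * dz j (fun z => (A z)⁻¹ b c) y) := by
          refine Finset.sum_congr rfl fun b _ => ?_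
          rw [← h6 b, Finset.sum_mul]
          exact Finset.sum_congr rfl fun a _ => by ring
      _ = _ := by
          rw [Finset.sum_comm]
          exact Finset.sum_congr rfl fun a _ => by rw [Finset.mul_sum]
  rw [h5, ← Finset.sum_neg_distrib]
  refine Finset.sum_congr rfl fun a _ => ?_
  rw [h4 a, mul_neg, Finset.mul_sum]
  congr 1
  exact Finset.sum_congr rfl fun b _ => by ring

theorem H1_isUnit_det {Θ : Matrix (Fin n) (Fin n) ℂ} (h : Θ.PosDef) : IsUnit Θ.det :=
  isUnit_iff_ne_zero.2 h.det_pos.ne'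

/-- Module H1: `∑_j ∂_j (det Θ Θ⁻¹_{kj}) = 0` for `Θ = ∂∂̄φ` -/
theorem cof_div {n : ℕ} {U : Set (E n)} (hU : IsOpen U) {φ : E n → ℝ} (hφ : ContDiffOn ℝ ∞ φ U)
    (hp : ∀ y ∈ U, (lev φ y).PosDef) {y : E n} (hy : y ∈ U) (k : Fin n) :
    ∑ j, dz j (fun z => (lev φ z).det * (lev φ z)⁻¹ k j) y = 0 := by
  have hUy : U ∈ 𝓝 y := hU.mem_nhds hy
  have hA : ∀ a b, DifferentiableAt ℝ (fun z => lev φ z a b) y := fun a b =>
    ((contDiffOn_lev hU hφ a b).contDiffAt hUy).differentiableAt (by simp)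
  have hR : ∀ a b, DifferentiableAt ℝ (fun z => (lev φ z)⁻¹ a b) y := fun a b =>
    ((contDiffOn_lev_inv hU hφ hp a b).contDiffAt hUy).differentiableAt (by simp)
  have hdet : ∀ᶠ z in 𝓝 y, IsUnit (lev φ z).det := by
    filter_upwards [hUy] with z hz
    exact H1_isUnit_det (hp z hz)
  have hD : DifferentiableAt ℝ (fun z => (lev φ z).det) y := by
    have h1 : (fun z => (lev φ z).det) = fun z => ∑ σ : Equiv.Perm (Fin n),
        ((Equiv.Perm.sign σ : ℤ) : ℂ) * ∏ i, lev φ z (σ i) i := by
      funext z; rw [Matrix.det_apply']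
    rw [h1]
    have := fun σ : Equiv.Perm (Fin n) =>
      (H1_diff_prod Finset.univ (f := fun i z => lev φ z (σ i) i) fun i _ => hA (σ i) i)
    fun_prop (disch := assumption)
  set Θ := lev φ y with hΘ
  set R := Θ⁻¹ with hRdef
  set T : Fin n → Fin n → Fin n → ℂ := fun j a b => dz j (fun z => lev φ z a b) y with hT
  have hsymm : ∀ j a b, T j a b = T a j b := fun j a b => dz_lev_symm hU hφ hy a b j
  have hadj : ∀ b a, Θ.adjugate b a = Θ.det * R b a := by
    intro b a
    have h1 : Θ.adjugate = Θ.det • R := by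
      rw [hRdef, Matrix.inv_def, smul_smul, Ring.mul_inverse_cancel _ (H1_isUnit_det (hp y hy)),
        one_smul]
    rw [h1]; rfl
  have h1 : ∀ j, dz j (fun z => (lev φ z).det * (lev φ z)⁻¹ k j) y
      = Θ.det * (∑ a, ∑ b, R b a * T j a b * R k j) - Θ.det * ∑ a, ∑ b, R k a * T j a b * R b j := by
    intro j
    rw [dz_mul hD (hR k j), H1_dz_det hA j, H1_dz_inv hA hR hdet j k j]
    have h2 : (∑ b, ∑ a, Θ.adjugate b a * dz j (fun z => lev φ z a b) y) * (lev φ y)⁻¹ k j
        = Θ.det * (∑ a, ∑ b, R b a * T j a b * R k j) := by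
      rw [Finset.sum_comm, Finset.sum_mul, Finset.mul_sum]
      refine Finset.sum_congr rfl fun a _ => ?_
      rw [Finset.sum_mul, Finset.mul_sum]
      refine Finset.sum_congr rfl fun b _ => ?_
      rw [hadj]
      simp only [hT, hRdef, hΘ]
      ring
    rw [h2]
    simp only [hT, hRdef, hΘ]
    ring
  rw [Finset.sum_congr rfl fun j _ => h1 j, Finset.sum_sub_distrib, ← Finset.mul_sum,
    ← Finset.mul_sum, ← mul_sub]
  have h3 : ∑ j, ∑ a, ∑ b, R b a * T j a b * R k j = ∑ j, ∑ a, ∑ b, R k a * T j a b * R b j := by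
    rw [Finset.sum_comm]
    refine Finset.sum_congr rfl fun a _ => ?_
    refine Finset.sum_congr rfl fun j _ => ?_
    refine Finset.sum_congr rfl fun b _ => ?_
    rw [hsymm j a b]
    ring
  rw [h3, sub_self, mul_zero]

end Local

variable {n : ℕ} {M : Type*} [TopologicalSpace M] [ChartedSpace (E n) M]
  [IsManifold 𝓘(ℂ, E n) ω M]

/-- smooth functions as weights on `-0K` -/
theorem H1_isWeight {u : M → ℝ} (hu : Sm n fun x => ((u x : ℝ) : ℂ)) :
    IsWeight 0 (fun e y => u (e.symm y) : Fam n M ℝ) := by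
  refine ⟨fun e he => ?_, fun e he e' he' x hx => ?_⟩
  · have h1 := hu e he
    have h2 : (fun y => u (e.symm y)) = fun y => (((u (e.symm y) : ℝ) : ℂ)).re := by
      funext y; simp
    rw [h2]
    exact Complex.reCLM.contDiff.comp_contDiffOn h1
  · simp [e.left_inv hx.1, e'.left_inv hx.2]

/-- `tr(Θ⁻¹ U)` is invariant -/
theorem H1_trace_comp {Θ Θ' U U' D : Matrix (Fin n) (Fin n) ℂ}
    (hD : IsUnit D.det)
    (h : ∀ j k, Θ j k = ∑ i, ∑ l, D i j * Θ' i l * (starRingEnd ℂ) (D l k))
    (h' : ∀ j k, U j k = ∑ i, ∑ l, D i j * U' i l * (starRingEnd ℂ) (D l k)) :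
    ∑ j, ∑ k, Θ⁻¹ k j * U j k = ∑ j, ∑ k, Θ'⁻¹ k j * U' j k := by
  set D' : Matrix (Fin n) (Fin n) ℂ := D.map (starRingEnd ℂ) with hD'
  have e1 : ∀ V V' : Matrix (Fin n) (Fin n) ℂ,
      (∀ j k, V j k = ∑ i, ∑ l, D i j * V' i l * (starRingEnd ℂ) (D l k)) → V = Dᵀ * V' * D' := by
    intro V V' hV
    ext j k
    rw [hV, Matrix.mul_apply, Finset.sum_comm]
    refine Finset.sum_congr rfl fun l _ => ?_
    rw [Matrix.mul_apply, Finset.sum_mul]
    exact Finset.sum_congr rfl fun i _ => by simp [Matrix.transpose_apply, hD']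
  have hDt : IsUnit Dᵀ.det := by rwa [Matrix.det_transpose]
  have hD'u : IsUnit D'.det := by
    have : D'.det = (starRingEnd ℂ) D.det := by
      rw [hD', ← RingHom.mapMatrix_apply, ← RingHom.map_det]
    rw [this]
    exact hD.map _
  have t1 : ∀ V W : Matrix (Fin n) (Fin n) ℂ, ∑ j, ∑ k, V k j * W j k = (V * W).trace := by
    intro V W
    rw [Matrix.trace, Finset.sum_comm]
    exact Finset.sum_congr rfl fun k _ => by rw [Matrix.diag_apply, Matrix.mul_apply]
  rw [t1, t1, e1 Θ Θ' h, e1 U U' h']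
  have e2 : (Dᵀ * Θ' * D')⁻¹ = D'⁻¹ * Θ'⁻¹ * Dᵀ⁻¹ := by
    rw [Matrix.mul_inv_rev, Matrix.mul_inv_rev, mul_assoc]
  rw [e2]
  calc (D'⁻¹ * Θ'⁻¹ * Dᵀ⁻¹ * (Dᵀ * U' * D')).trace
      = (D'⁻¹ * (Θ'⁻¹ * (Dᵀ⁻¹ * Dᵀ) * U' * D')).trace := by simp only [mul_assoc]
    _ = ((Θ'⁻¹ * U' * D') * D'⁻¹).trace := by
        rw [Matrix.nonsing_inv_mul _ hDt, mul_one, Matrix.trace_mul_comm]
    _ = (Θ'⁻¹ * U').trace := by
        rw [mul_assoc (Θ'⁻¹ * U'), Matrix.mul_nonsing_inv _ hD'u, mul_one]

/-- the density `det Θ tr(Θ⁻¹ ∂∂̄u)` -/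
def H1F (φ : Fam n M ℝ) (u : M → ℝ) : Fam n M ℂ := fun e y =>
  (lev (φ e) y).det * ∑ j, ∑ k, (lev (φ e) y)⁻¹ k j * lev (fun z => u (e.symm z)) y j k

theorem H1F_isDen {φ : Fam n M ℝ} (hφ : IsPos 1 φ) {u : M → ℝ}
    (hu : Sm n fun x => ((u x : ℝ) : ℂ)) : IsDen (H1F φ u) := by
  intro e he e' he' x hx
  have h1 := lev_trans hφ.toIsWeight he he' hx.1 hx.2
  have h2 := lev_trans (H1_isWeight hu) he he' hx.1 hx.2
  unfold H1F
  rw [det_lev_trans hφ.toIsWeight he he' hx.1 hx.2, mul_assoc]
  congr 2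
  refine H1_trace_comp (D := Matrix.of fun i j =>
    fderiv ℂ (fun z => e' (e.symm z)) (e x) (Pi.single j 1) i) ?_ ?_ ?_
  · rw [← jac_eq_det]
    exact isUnit_iff_ne_zero.2 (jac_ne_zero he he' hx.1 hx.2)
  · intro j k
    exact h1 j k
  · intro j k
    exact h2 j k

theorem H1F_continuousOn {φ : Fam n M ℝ} (hφ : IsPos 1 φ) {u : M → ℝ}
    (hu : Sm n fun x => ((u x : ℝ) : ℂ)) (e : Ch n M) (he : e ∈ atlas (E n) M) :
    ContinuousOn (H1F φ u e) e.target := by
  have hA := fun a b => (contDiffOn_lev e.open_target (hφ.smooth e he) a b).continuousOn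
  have hR := fun a b =>
    (contDiffOn_lev_inv e.open_target (hφ.smooth e he) (hφ.pos e he) a b).continuousOn
  have hW := fun a b =>
    (contDiffOn_lev e.open_target ((H1_isWeight hu).smooth e he) a b).continuousOn
  unfold H1F
  refine ContinuousOn.mul ?_ ?_
  · have h1 : (fun z => (lev (φ e) z).det) = fun z => ∑ σ : Equiv.Perm (Fin n),
        ((Equiv.Perm.sign σ : ℤ) : ℂ) * ∏ i, lev (φ e) z (σ i) i := by
      funext z; rw [Matrix.det_apply']
    rw [h1]
    refine continuousOn_finsetSum _ fun σ _ => continuousOn_const.mul ?_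
    exact continuousOn_finsetProd _ fun i _ => hA (σ i) i
  · refine continuousOn_finsetSum _ fun j _ => continuousOn_finsetSum _ fun k _ => ?_
    exact (hR k j).mul (hW j k)

theorem H1_det_real {Θ : Matrix (Fin n) (Fin n) ℂ} (h : Θ.PosDef) :
    ((Θ.det.re : ℝ) : ℂ) = Θ.det := by
  have h1 := h.det_pos
  rw [Complex.lt_def] at h1
  apply Complex.ext
  · simp
  · simpa using h1.2

theorem H1_lap_mul_dl {φ : Fam n M ℝ} (hφ : IsPos 1 φ) (u : M → ℝ) (x : M) :
    lap φ u x * dl φ x = (fn φ (H1F φ u) x).re := by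
  have hpos := hφ.pos _ (chart_mem_atlas (E n) x) _ (mem_chart_target (E n) x)
  have h1 := H1_det_real hpos
  unfold lap dl fn H1F
  set d := (lev (φ (chartAt (E n) x)) (chartAt (E n) x x)).det with hd
  set S := ∑ j, ∑ k, (lev (φ (chartAt (E n) x)) (chartAt (E n) x x))⁻¹ k j *
    lev (fun z => u ((chartAt (E n) x).symm z)) (chartAt (E n) x x) j k with hS
  rw [← h1, Complex.mul_re, Complex.mul_re, Complex.mul_im]
  simp only [Complex.ofReal_re, Complex.ofReal_im]
  ring

variable [CompactSpace M] [T2Space M]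
variable [MeasurableSpace M] [BorelSpace M] {μ : Measure M} {φ : Fam n M ℝ}

/-- the local computation: the integral over a chart of the density of a function with support in
the chart -/
theorem H1_chart (hφ : IsPos 1 φ) {u : M → ℝ} (hu : Sm n fun x => ((u x : ℝ) : ℂ))
    {e : Ch n M} (he : e ∈ atlas (E n) M) {χ : M → ℝ} (hχ : Sm n fun x => ((χ x : ℝ) : ℂ))
    (hsupp : tsupport χ ⊆ e.source) :
    ∫ y in e.target, H1F φ (fun x => χ x * u x) e y = 0 := by
  have hsec : IsSec 0 (fun e y => ((u (e.symm y) : ℝ) : ℂ) : Fam n M ℂ) := isSec_zero_iff.1 hu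
  obtain ⟨c1, c2, c3⟩ := contDiff_cut hsec he hχ (isClosed_tsupport χ).isCompact hsupp
  set v : E n → ℂ := Set.indicator e.target
    fun y => ((χ (e.symm y) : ℝ) : ℂ) * ((u (e.symm y) : ℝ) : ℂ) with hv
  set A : Fin n → Fin n → E n → ℂ := fun k j z => (lev (φ e) z).det * (lev (φ e) z)⁻¹ k j with hAdef
  have hΘ := fun a b => contDiffOn_lev e.open_target (hφ.smooth e he) a b
  have hR := fun a b => contDiffOn_lev_inv e.open_target (hφ.smooth e he) (hφ.pos e he) a b
  have hdet : ContDiffOn ℝ ∞ (fun z => (lev (φ e) z).det) e.target := by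
    have h1 : (fun z => (lev (φ e) z).det) = fun z => ∑ σ : Equiv.Perm (Fin n),
        ((Equiv.Perm.sign σ : ℤ) : ℂ) * ∏ i, lev (φ e) z (σ i) i := by
      funext z; rw [Matrix.det_apply']
    rw [h1]
    refine ContDiffOn.sum fun σ _ => contDiffOn_const.mul ?_
    exact contDiffOn_prod fun i _ => hΘ (σ i) i
  have hA : ∀ k j, ContDiffOn ℝ ∞ (A k j) e.target := fun k j => hdet.mul (hR k j)
  have hdbv : ∀ k, ContDiff ℝ ∞ (db k v) := fun k => contDiff_db c1 k
  have hsv : ∀ k, tsupport (db k v) ⊆ e.target := fun k => (tsupport_db_subset v k).trans c3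
  have hG : ∀ k j, ContDiff ℝ ∞ (fun y => A k j y * db k v y) := fun k j =>
    contDiff_mul_test e.open_target (hA k j) (hdbv k) (hsv k)
  have hsub : ∀ k j, tsupport (fun y => A k j y * db k v y) ⊆ tsupport (db k v) := fun k j =>
    tsupport_mul_subset_right
  have hdc : ∀ k, HasCompactSupport (db k v) := fun k =>
    c2.mono' ((subset_tsupport _).trans (tsupport_db_subset v k))
  have hGc : ∀ k j, HasCompactSupport (fun y => A k j y * db k v y) := fun k j =>
    (hdc k).mono' ((subset_tsupport _).trans (hsub k j))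
  have hdG : ∀ k j, HasCompactSupport (dz j (fun y => A k j y * db k v y)) := fun k j =>
    (hGc k j).mono' ((subset_tsupport _).trans (tsupport_dz_subset _ j))
  -- the identity on the target
  have key : ∀ y ∈ e.target, H1F φ (fun x => χ x * u x) e y
      = ∑ k, ∑ j, dz j (fun y => A k j y * db k v y) y := by
    intro y hy
    have hUy : e.target ∈ 𝓝 y := e.open_target.mem_nhds hy
    have hlev : ∀ j k, lev (fun z => χ (e.symm z) * u (e.symm z)) y j k = dz j (db k v) y := by
      intro j k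
      unfold lev
      rw [Matrix.of_apply]
      apply dz_congr
      have h1 : ∀ᶠ z in 𝓝 y, z ∈ e.target := hUy
      filter_upwards [h1] with z hz
      apply db_congr
      filter_upwards [e.open_target.mem_nhds hz] with w hw
      rw [hv, Set.indicator_of_mem hw]
      push_cast
      rfl
    have hAd : ∀ k j, DifferentiableAt ℝ (A k j) y := fun k j =>
      ((hA k j).contDiffAt hUy).differentiableAt (by simp)
    have hvd : ∀ k, DifferentiableAt ℝ (db k v) y := fun k =>
      (hdbv k).contDiffAt.differentiableAt (by simp)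
    unfold H1F
    rw [Finset.mul_sum, Finset.sum_congr rfl fun j _ => Finset.mul_sum _ _ _, Finset.sum_comm]
    refine Finset.sum_congr rfl fun k _ => ?_
    have h2 := cof_div e.open_target (hφ.smooth e he) (hφ.pos e he) hy k
    have h3 : ∑ j, dz j (fun y => A k j y * db k v y) y
        = (∑ j, dz j (A k j) y) * db k v y + ∑ j, A k j y * dz j (db k v) y := by
      rw [Finset.sum_mul, ← Finset.sum_add_distrib]
      exact Finset.sum_congr rfl fun j _ => dz_mul (hAd k j) (hvd k) j
    rw [h3, show (∑ j, dz j (A k j) y) = 0 from h2, zero_mul, zero_add]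
    refine Finset.sum_congr rfl fun j _ => ?_
    rw [hlev, hAdef, mul_assoc]
  rw [setIntegral_congr_fun e.open_target.measurableSet key]
  have hout : ∀ y, y ∉ e.target → ∑ k, ∑ j, dz j (fun y => A k j y * db k v y) y = 0 := by
    intro y hy
    refine Finset.sum_eq_zero fun k _ => Finset.sum_eq_zero fun j _ => ?_
    apply image_eq_zero_of_notMem_tsupport
    exact fun h => hy (hsv k (hsub k j (tsupport_dz_subset _ j h)))
  rw [setIntegral_eq_integral_of_forall_compl_eq_zero hout, integral_finsetSum]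
  · refine Finset.sum_eq_zero fun k _ => ?_
    rw [integral_finsetSum]
    · exact Finset.sum_eq_zero fun j _ => integral_dz_eq_zero (hG k j) (hGc k j) j
    · exact fun j _ => (contDiff_dz (hG k j) j).continuous.integrable_of_hasCompactSupport (hdG k j)
  · intro k _
    exact integrable_finsetSum _ fun j _ =>
      (contDiff_dz (hG k j) j).continuous.integrable_of_hasCompactSupport (hdG k j)

theorem H1_lev_zero {n : ℕ} (y : E n) : lev (fun _ : E n => (0 : ℝ)) y = 0 := by
  ext j k
  unfold lev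
  rw [Matrix.of_apply]
  have h1 : (db k fun _ : E n => ((0 : ℝ) : ℂ)) = fun _ => 0 := by
    funext z; exact db_const _ _ _
  rw [h1, dz_const]
  rfl

theorem H1_lev_sum {n : ℕ} {ι : Type*} (s : Finset ι) {ψ : ι → E n → ℝ} {y : E n}
    (hψ : ∀ i ∈ s, ContDiffAt ℝ 2 (ψ i) y) :
    lev (fun z => ∑ i ∈ s, ψ i z) y = ∑ i ∈ s, lev (ψ i) y := by
  classical
  induction s using Finset.induction_on with
  | empty => simpa using H1_lev_zero y
  | insert a s ha ih =>
    have h1 : (fun z => ∑ i ∈ insert a s, ψ i z) = fun z => ψ a z + ∑ i ∈ s, ψ i z := by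
      funext z; rw [Finset.sum_insert ha]
    have hs : ∀ i ∈ s, ContDiffAt ℝ 2 (ψ i) y := fun i hi => hψ i (Finset.mem_insert_of_mem hi)
    rw [h1, lev_add (hψ a (Finset.mem_insert_self a s)) (ContDiffAt.sum hs), ih hs,
      Finset.sum_insert ha]

/-- Module H1: the integral of a Laplacian is zero -/
theorem integral_lap (hφ : IsPos 1 φ) (hμ : IsDens μ φ) {u : M → ℝ}
    (hu : Sm n fun x => ((u x : ℝ) : ℂ)) : ∫ x, lap φ u x * dl φ x ∂μ = 0 := by
  have hfin := isFiniteMeasure_of_isDens hφ.toIsWeight hμ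
  obtain ⟨N, p, χ, hχ, -, hsum, hsupp⟩ := exists_partition (n := n) (M := M) (fun _ => univ)
    (fun _ => univ_mem)
  have hχu : ∀ i, Sm n fun x => (((χ i x * u x : ℝ)) : ℂ) := by
    intro i e he
    have := (hχ i e he).mul (hu e he)
    refine this.congr fun y _ => ?_
    push_cast
    rfl
  have hint : ∀ {w : M → ℝ}, Sm n (fun x => ((w x : ℝ) : ℂ)) →
      Integrable (fn φ (H1F φ w)) μ := by
    intro w hw
    have hc := continuous_fn hφ.toIsWeight (H1F_isDen hφ hw) (H1F_continuousOn hφ hw)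
    exact hc.integrable_of_hasCompactSupport (HasCompactSupport.of_compactSpace _)
  have h1 : ∫ x, lap φ u x * dl φ x ∂μ = (∫ x, fn φ (H1F φ u) x ∂μ).re := by
    have h2 : ∀ x, lap φ u x * dl φ x = Complex.reCLM (fn φ (H1F φ u) x) := fun x =>
      H1_lap_mul_dl hφ u x
    simp only [h2]
    rw [ContinuousLinearMap.integral_comp_comm _ (hint hu)]
    rfl
  have h2 : ∀ x, fn φ (H1F φ u) x = ∑ i, fn φ (H1F φ fun x => χ i x * u x) x := by
    intro x
    set e := chartAt (E n) x with he
    have hemem : e ∈ atlas (E n) M := chart_mem_atlas (E n) x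
    have hey : e x ∈ e.target := mem_chart_target (E n) x
    have h3 : (fun z => u (e.symm z)) = fun z => ∑ i, χ i (e.symm z) * u (e.symm z) := by
      funext z
      rw [← Finset.sum_mul, hsum, one_mul]
    have h4 : lev (fun z => u (e.symm z)) (e x)
        = ∑ i, lev (fun z => χ i (e.symm z) * u (e.symm z)) (e x) := by
      rw [h3]
      refine H1_lev_sum Finset.univ fun i _ => ?_
      exact (((H1_isWeight (hχu i)).smooth e hemem).contDiffAt (e.open_target.mem_nhds hey)).of_le
        (by norm_cast)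
    unfold fn H1F
    rw [← Finset.sum_mul, ← Finset.mul_sum]
    rw [← he, h4]
    congr 2
    simp only [Matrix.sum_apply, Finset.mul_sum]
    symm
    rw [Finset.sum_comm]
    exact Finset.sum_congr rfl fun k _ => Finset.sum_comm
  have h5 : ∀ i, ∫ x, fn φ (H1F φ fun x => χ i x * u x) x ∂μ = 0 := by
    intro i
    set e := chartAt (E n) (p i) with he
    have hemem : e ∈ atlas (E n) M := chart_mem_atlas (E n) (p i)
    have hs : tsupport (χ i) ⊆ e.source := (hsupp i).trans Set.inter_subset_right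
    have h6 : ∀ x, x ∉ e.source → fn φ (H1F φ fun x => χ i x * u x) x = 0 := by
      intro x hx
      have hx' : x ∉ tsupport (χ i) := fun h => hx (hs h)
      set e' := chartAt (E n) x with he'
      have hey : e' x ∈ e'.target := mem_chart_target (E n) x
      have hxs : x ∈ e'.source := mem_chart_source (E n) x
      have h7 : lev (fun z => χ i (e'.symm z) * u (e'.symm z)) (e' x) = 0 := by
        rw [← H1_lev_zero (e' x)]
        apply lev_congr
        have h8 : ∀ᶠ w in 𝓝 x, χ i w = 0 := by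
          filter_upwards [(isClosed_tsupport (χ i)).isOpen_compl.mem_nhds hx'] with w hw
          exact image_eq_zero_of_notMem_tsupport hw
        have h9 : Tendsto e'.symm (𝓝 (e' x)) (𝓝 x) := by
          have := e'.continuousAt_symm hey
          rwa [ContinuousAt, e'.left_inv hxs] at this
        filter_upwards [h9.eventually h8] with w hw
        rw [hw, zero_mul]
      unfold fn H1F
      rw [← he', h7]
      simp
    rw [← setIntegral_eq_integral_of_forall_compl_eq_zero h6,
      setIntegral_fn hφ.toIsWeight hμ (H1F_isDen hφ (hχu i)) hemem]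
    exact H1_chart hφ hu hemem (hχ i) hs
  rw [h1]
  simp only [h2]
  rw [integral_finsetSum _ fun i _ => hint (hχu i), Finset.sum_eq_zero fun i _ => h5 i]
  rfl

end Pool.Agent.helper63.NU
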