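import Pool.Agent.helper13.NU.G1

set_option autoImplicit false

/-! Module E2 of MP_737c0a_gt (plan of helper63): the optimisation lemma. -/

open MeasureTheory Filter Topology Set
open scoped ContDiff Manifold Matrix ENNReal ComplexOrder

noncomputable section

namespace Pool.Agent.helper63.NU

variable {N : ℕ}

/-- In an order ideal with `N` elements every element has degree at most `N`. -/
theorem E2_deg_le {n : ℕ} (α : Fin N → Fin n → ℕ)
    (hid : ∀ i β, β ≤ α i → ∃ j, α j = β) (i : Fin N) : ∑ a, α i a ≤ N := by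
  classical
  choose! f hf using hid
  have h1 : (Finset.Iic (α i)).card ≤ (Finset.univ : Finset (Fin N)).card := by
    refine Finset.card_le_card_of_injOn (fun β => f i β) (fun _ _ => Finset.mem_coe.2 (Finset.mem_univ _)) ?_
    intro β hβ β' hβ' h
    have h2 := hf i β (Finset.mem_Iic.1 (Finset.mem_coe.1 hβ))
    have h3 := hf i β' (Finset.mem_Iic.1 (Finset.mem_coe.1 hβ'))
    rw [← h2, ← h3]
    exact congrArg α h
  rw [Finset.card_univ, Fintype.card_fin, Pi.card_Iic] at h1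
  have h2 : ∀ s : Finset (Fin n), ∑ a ∈ s, α i a + 1 ≤ ∏ a ∈ s, (Finset.Iic (α i a)).card := by
    intro s
    induction s using Finset.induction_on with
    | empty => simp
    | insert a s ha ih =>
      rw [Finset.sum_insert ha, Finset.prod_insert ha, Nat.card_Iic]
      nlinarith [Nat.zero_le (α i a), Nat.zero_le (∑ a ∈ s, α i a)]
  have := h2 Finset.univ
  omega

/-- the partition function -/
def E2Z (θ : ℝ) (lam : Fin N → ℝ) : ℝ := ∑ i, Real.exp (-(θ * lam i))

theorem E2Z_pos (hN : 0 < N) (θ : ℝ) (lam : Fin N → ℝ) : 0 < E2Z θ lam := by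
  have : Nonempty (Fin N) := ⟨⟨0, hN⟩⟩
  exact Finset.sum_pos (fun i _ => Real.exp_pos _) Finset.univ_nonempty

/-- Rescaling: the function `s ↦ H(C, s lam)` has a minimum on `[0,1]`. -/
theorem E2_rescale (hN : 0 < N) (θ a : ℝ) (lam : Fin N → ℝ) :
    ∃ s : ℝ, 0 ≤ s ∧ Real.log (E2Z θ (s • lam)) + s * a ≤ Real.log (E2Z θ lam) + a ∧
      s * a ≤ ∑ i, Real.exp (-(θ * (s • lam) i)) / E2Z θ (s • lam) * (θ * (s • lam) i) := by
  set h : ℝ → ℝ := fun s => Real.log (E2Z θ (s • lam)) + s * a with hh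
  have hder : ∀ s, HasDerivAt h
      ((∑ i, Real.exp (-(θ * (s • lam) i)) * (-(θ * lam i))) / E2Z θ (s • lam) + a) s := by
    intro s
    have h1 : HasDerivAt (fun s : ℝ => E2Z θ (s • lam))
        (∑ i, Real.exp (-(θ * (s • lam) i)) * (-(θ * lam i))) s := by
      unfold E2Z
      apply HasDerivAt.fun_sum
      intro i _
      apply HasDerivAt.exp
      have h2 : HasDerivAt (fun s : ℝ => -(θ * (s * lam i))) (-(θ * (1 * lam i))) s :=
        (((hasDerivAt_id s).mul_const (lam i)).const_mul θ).neg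
      simpa [Pi.smul_apply, smul_eq_mul] using h2
    have h3 := (h1.log (E2Z_pos hN θ _).ne').add ((hasDerivAt_id s).mul_const a)
    rw [one_mul] at h3
    exact h3
  have hcont : ContinuousOn h (Icc 0 1) := fun s _ => (hder s).continuousAt.continuousWithinAt
  obtain ⟨s, hs, hmin⟩ := isCompact_Icc.exists_isMinOn (nonempty_Icc.2 (zero_le_one' ℝ)) hcont
  refine ⟨s, hs.1, ?_, ?_⟩
  · have := hmin (show (1 : ℝ) ∈ Icc (0:ℝ) 1 from ⟨zero_le_one, le_rfl⟩)
    simpa [hh] using this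
  rcases hs.1.eq_or_lt with h0 | h0
  · subst h0
    simp
  · have hd := hder s
    have hle : (∑ i, Real.exp (-(θ * (s • lam) i)) * (-(θ * lam i))) / E2Z θ (s • lam) + a ≤ 0 := by
      have h1 := (hasDerivAt_iff_tendsto_slope.1 hd).mono_left
        (nhdsWithin_mono s (fun x (hx : x < s) => (ne_of_lt hx : x ≠ s)) : 𝓝[<] s ≤ 𝓝[≠] s)
      refine le_of_tendsto h1 ?_
      have h2 : ∀ᶠ x in 𝓝[<] s, 0 < x ∧ x < s := by
        refine Filter.Eventually.and ?_ self_mem_nhdsWithin
        exact mem_nhdsWithin_of_mem_nhds (Ioi_mem_nhds h0)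
      filter_upwards [h2] with x hx
      have h3 : h s ≤ h x := hmin (show x ∈ Icc (0:ℝ) 1 from ⟨hx.1.le, (hx.2.le.trans hs.2)⟩)
      rw [_root_.slope_def_field]
      exact div_nonpos_of_nonneg_of_nonpos (by linarith) (by linarith [hx.2])
    have h4 : s * ((∑ i, Real.exp (-(θ * (s • lam) i)) * (-(θ * lam i))) / E2Z θ (s • lam) + a) ≤ 0 :=
      mul_nonpos_of_nonneg_of_nonpos h0.le hle
    have h5 : ∑ i, Real.exp (-(θ * (s • lam) i)) / E2Z θ (s • lam) * (θ * (s • lam) i)
        = -(s * ((∑ i, Real.exp (-(θ * (s • lam) i)) * (-(θ * lam i))) / E2Z θ (s • lam))) := by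
      rw [Finset.sum_div, Finset.mul_sum, ← Finset.sum_neg_distrib]
      refine Finset.sum_congr rfl fun i _ => ?_
      simp only [Pi.smul_apply, smul_eq_mul]
      ring
    rw [h5]
    linarith

theorem E2_exp_le {x : ℝ} (hx : 0 ≤ x) : Real.exp (-x) ≤ 1 - x + x ^ 2 / 2 := by
  have h := Real.quadratic_le_exp_of_nonneg hx
  have h1 : 0 < 1 + x + x ^ 2 / 2 := by positivity
  rw [Real.exp_neg, inv_le_iff_one_le_mul₀ (Real.exp_pos x)]
  have h2 : 0 ≤ 1 - x + x ^ 2 / 2 := by nlinarith [sq_nonneg (x - 1)]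
  calc (1 : ℝ) ≤ (1 - x + x ^ 2 / 2) * (1 + x + x ^ 2 / 2) := by nlinarith [sq_nonneg (x ^ 2)]
    _ ≤ _ := mul_le_mul_of_nonneg_left h h2

theorem optimize {n : ℕ} (hn : 0 < n) (hN : 0 < N) {θ L : ℝ} (hθ : 0 < θ)
    (A : Matrix (Fin N) (Fin N) ℂ → (Fin N → ℝ) → ℝ)
    (hhom : ∀ C, IsUnit C.det → ∀ lam, ∀ t ≥ 0, A C (t • lam) = t * A C lam)
    (hsub : ∀ C, IsUnit C.det → ∀ lam lam', A C (lam + lam') ≤ A C lam + A C lam')
    (hflag : ∀ C C', IsUnit C.det → IsUnit C'.det → ∀ lam lam' : Fin N → ℝ,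
      (∀ i j, C' i j ≠ 0 → lam' i ≤ lam j) → A (C' * C) lam' ≤ A C lam)
    (hL : ∀ C, IsUnit C.det → ∀ lam, L ≤ Real.log (∑ i, Real.exp (-(θ * lam i))) + A C lam)
    (hjet : ∀ C, IsUnit C.det → ∀ lam : Fin N → ℝ, ∃ (C' : Matrix (Fin N) (Fin N) ℂ)
      (σ : Equiv.Perm (Fin N)) (α : Fin N → Fin n → ℕ), IsUnit C'.det ∧ Function.Injective α ∧
      (∀ i β, β ≤ α i → ∃ j, α j = β) ∧ (∀ i j, C' i j ≠ 0 → lam (σ i) ≤ lam j) ∧
      (∀ i j, α i ≤ α j → lam (σ j) ≤ lam (σ i)) ∧
      A (C' * C) (fun i => (∑ a, α i a : ℕ)) ≤ n) :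
    L ≤ n * Real.log ((n + 1) * (1 / θ + 1)) - Real.log (n.factorial) := by
  classical
  have hn' : (0 : ℝ) < n := by exact_mod_cast hn
  -- the infimum
  set Sset : Set ℝ := {v | ∃ C : Matrix (Fin N) (Fin N) ℂ, IsUnit C.det ∧ ∃ lam : Fin N → ℝ,
    v = Real.log (E2Z θ lam) + A C lam} with hSset
  have hbdd : BddBelow Sset := ⟨L, by
    rintro v ⟨C, hC, lam, rfl⟩
    exact hL C hC lam⟩
  have hne : Sset.Nonempty := ⟨_, 1, by simp, 0, rfl⟩
  set I := sInf Sset with hI
  have hLI : L ≤ I := le_csInf hne (by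
    rintro v ⟨C, hC, lam, rfl⟩
    exact hL C hC lam)
  have hIle : ∀ C : Matrix (Fin N) (Fin N) ℂ, IsUnit C.det → ∀ lam : Fin N → ℝ,
      I ≤ Real.log (E2Z θ lam) + A C lam := fun C hC lam => csInf_le hbdd ⟨C, hC, lam, rfl⟩
  -- the main estimate
  have key : ∀ ε > (0 : ℝ), L ≤ n * Real.log ((n + 1) * (((n + ε * (1 + θ ^ 2 * N ^ 2 / 2)) / θ) + n) / n)
      - Real.log (n.factorial) := by
    intro ε hε
    obtain ⟨v, ⟨C, hC, lam0, rfl⟩, hv⟩ := exists_lt_of_csInf_lt hne
      (show sInf Sset < I + ε ^ 2 by have := pow_pos hε 2; linarith)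
    obtain ⟨s, hs0, hs1, hs2⟩ := E2_rescale hN θ (A C lam0) lam0
    set lam := s • lam0 with hlam
    have hA : A C lam = s * A C lam0 := hhom C hC lam0 s hs0
    rw [← hA] at hs1 hs2
    set Z := E2Z θ lam with hZ
    have hZ0 : 0 < Z := E2Z_pos hN θ lam
    set g : Fin N → ℝ := fun i => Real.exp (-(θ * lam i)) / Z with hg
    have hg0 : ∀ i, 0 < g i := fun i => div_pos (Real.exp_pos _) hZ0
    have hgsum : ∑ i, g i = 1 := by
      rw [hg, ← Finset.sum_div]
      exact div_self hZ0.ne'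
    have hlogg : ∀ i, Real.log (g i) = -(θ * lam i) - Real.log Z := by
      intro i
      rw [hg]
      simp only
      rw [Real.log_div (Real.exp_pos _).ne' hZ0.ne', Real.log_exp]
    -- H ≤ entropy
    have hent : Real.log Z + A C lam ≤ -∑ i, g i * Real.log (g i) := by
      have : -∑ i, g i * Real.log (g i) = ∑ i, g i * (θ * lam i) + Real.log Z := by
        calc -∑ i, g i * Real.log (g i) = ∑ i, (g i * (θ * lam i) + g i * Real.log Z) := by
              rw [← Finset.sum_neg_distrib]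
              refine Finset.sum_congr rfl fun i _ => ?_
              rw [hlogg]; ring
          _ = _ := by rw [Finset.sum_add_distrib, ← Finset.sum_mul, hgsum, one_mul]
      rw [this]
      linarith [hs2]
    have hH : Real.log Z + A C lam ≤ I + ε ^ 2 := by linarith
    -- jets
    obtain ⟨C', σ, α, hC', hαinj, hαid, hflg, hmono, hA'⟩ := hjet C hC lam
    have hdeg : ∀ i, ∑ a, α i a ≤ N := E2_deg_le α hαid
    set d : Fin N → ℝ := fun i => ((∑ a, α i a : ℕ) : ℝ) with hd
    have hd0 : ∀ i, 0 ≤ d i := fun i => Nat.cast_nonneg _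
    have hdN : ∀ i, d i ≤ N := fun i => by
      simp only [hd]
      exact_mod_cast hdeg i
    have hCC : IsUnit (C' * C).det := by rw [Matrix.det_mul]; exact hC'.mul hC
    set lam' : Fin N → ℝ := fun i => lam (σ i) with hlam'
    have hA1 : A (C' * C) (lam' + ε • d) ≤ A C lam + ε * n := by
      calc A (C' * C) (lam' + ε • d) ≤ A (C' * C) lam' + A (C' * C) (ε • d) := hsub _ hCC _ _
        _ = A (C' * C) lam' + ε * A (C' * C) d := by rw [hhom _ hCC d ε hε.le]
        _ ≤ A C lam + ε * n := add_le_add (hflag C C' hC hC' lam lam' hflg)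
            (mul_le_mul_of_nonneg_left hA' hε.le)
    have hI1 := hIle (C' * C) hCC (lam' + ε • d)
    -- the partition function of lam' + ε d
    have hZ1 : E2Z θ (lam' + ε • d) = Z * ∑ i, g (σ i) * Real.exp (-(θ * (ε * d i))) := by
      rw [Finset.mul_sum]
      unfold E2Z
      refine Finset.sum_congr rfl fun i _ => ?_
      simp only [hg, hlam', Pi.add_apply, Pi.smul_apply, smul_eq_mul]
      rw [← mul_assoc, mul_div_cancel₀ _ hZ0.ne', ← Real.exp_add]
      congr 1
      ring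
    have hY0 : 0 < ∑ i, g (σ i) * Real.exp (-(θ * (ε * d i))) := by
      have := E2Z_pos hN θ (lam' + ε • d)
      rw [hZ1] at this
      exact (pos_iff_pos_of_mul_pos this).1 hZ0
    have hlogY : Real.log (E2Z θ (lam' + ε • d))
        ≤ Real.log Z + (∑ i, g (σ i) * Real.exp (-(θ * (ε * d i))) - 1) := by
      rw [hZ1, Real.log_mul hZ0.ne' hY0.ne']
      linarith [Real.log_le_sub_one_of_pos hY0]
    have hgσ : ∑ i, g (σ i) = 1 := by rw [Equiv.sum_comp σ g, hgsum]
    have hY1 : ∑ i, g (σ i) * Real.exp (-(θ * (ε * d i))) - 1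
        ≤ -(θ * ε * ∑ i, g (σ i) * d i) + ε ^ 2 * (θ ^ 2 * N ^ 2 / 2) := by
      have : ∀ i, g (σ i) * Real.exp (-(θ * (ε * d i)))
          ≤ g (σ i) - θ * ε * (g (σ i) * d i) + g (σ i) * (ε ^ 2 * (θ ^ 2 * N ^ 2 / 2)) := by
        intro i
        have h1 := E2_exp_le (x := θ * (ε * d i)) (by have := hd0 i; positivity)
        have h2 : (θ * (ε * d i)) ^ 2 / 2 ≤ ε ^ 2 * (θ ^ 2 * N ^ 2 / 2) := by
          have h3 : d i ^ 2 ≤ (N : ℝ) ^ 2 := pow_le_pow_left₀ (hd0 i) (hdN i) 2
          have h4 : (θ * (ε * d i)) ^ 2 / 2 = (ε ^ 2 * θ ^ 2 / 2) * d i ^ 2 := by ring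
          have h5 : ε ^ 2 * (θ ^ 2 * (N : ℝ) ^ 2 / 2) = (ε ^ 2 * θ ^ 2 / 2) * (N : ℝ) ^ 2 := by ring
          rw [h4, h5]
          exact mul_le_mul_of_nonneg_left h3 (by positivity)
        calc g (σ i) * Real.exp (-(θ * (ε * d i)))
            ≤ g (σ i) * (1 - θ * (ε * d i) + ε ^ 2 * (θ ^ 2 * N ^ 2 / 2)) :=
              mul_le_mul_of_nonneg_left (by linarith) (hg0 _).le
          _ = _ := by ring
      calc ∑ i, g (σ i) * Real.exp (-(θ * (ε * d i))) - 1
          ≤ ∑ i, (g (σ i) - θ * ε * (g (σ i) * d i) + g (σ i) * (ε ^ 2 * (θ ^ 2 * N ^ 2 / 2))) - 1 := by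
            have := Finset.sum_le_sum (fun i (_ : i ∈ Finset.univ) => this i)
            linarith
        _ = _ := by
            rw [Finset.sum_add_distrib, Finset.sum_sub_distrib, hgσ, ← Finset.mul_sum,
              ← Finset.sum_mul, hgσ]
            ring
    -- the mean degree
    have hmean : ∑ i, g (σ i) * d i ≤ (n + ε * (1 + θ ^ 2 * N ^ 2 / 2)) / θ := by
      rw [le_div_iff₀ hθ]
      have h1 : -(ε ^ 2) ≤ -(θ * ε * ∑ i, g (σ i) * d i) + ε ^ 2 * (θ ^ 2 * N ^ 2 / 2) + ε * n := by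
        linarith
      have h2 : ε * ((∑ i, g (σ i) * d i) * θ) ≤ ε * (n + ε * (1 + θ ^ 2 * N ^ 2 / 2)) := by
        nlinarith [h1]
      exact le_of_mul_le_mul_left h2 hε
    -- the entropy inequality
    set B : Finset (Fin n → ℕ) := Finset.univ.image α with hB
    set G : (Fin n → ℕ) → ℝ := fun β => ∑ i, if α i = β then g (σ i) else 0 with hG
    have hGα : ∀ i, G (α i) = g (σ i) := by
      intro i
      simp only [hG]
      rw [Finset.sum_eq_single i]
      · simp
      · intro j _ hj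
        rw [if_neg]
        exact fun h => hj (hαinj h)
      · simp
    have hBsum : ∀ F : (Fin n → ℕ) → ℝ, ∑ β ∈ B, F β = ∑ i, F (α i) := by
      intro F
      rw [hB, Finset.sum_image]
      intro i _ j _ h
      exact hαinj h
    have hentle := entropy_le hn B (by
        intro β hβ γ hγ
        obtain ⟨i, -, rfl⟩ := Finset.mem_image.1 hβ
        obtain ⟨j, hj⟩ := hαid i γ hγ
        exact Finset.mem_image.2 ⟨j, Finset.mem_univ _, hj⟩) G (by
        intro β hβ
        obtain ⟨i, -, rfl⟩ := Finset.mem_image.1 hβ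
        rw [hGα]
        exact (hg0 _).le) (by
        rw [hBsum]
        simp only [hGα]
        exact hgσ) (by
        intro β hβ γ hγ hle
        obtain ⟨i, -, rfl⟩ := Finset.mem_image.1 hβ
        obtain ⟨j, -, rfl⟩ := Finset.mem_image.1 hγ
        rw [hGα, hGα]
        simp only [hg]
        apply div_le_div_of_nonneg_right _ hZ0.le
        apply Real.exp_le_exp.2
        have := hmono i j hle
        nlinarith)
    rw [hBsum, hBsum] at hentle
    simp only [hGα] at hentle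
    have hperm : ∑ i, g (σ i) * Real.log (g (σ i)) = ∑ i, g i * Real.log (g i) :=
      Equiv.sum_comp σ (fun i => g i * Real.log (g i))
    rw [hperm] at hentle
    have hdd : ∀ i, (∑ a, (α i a : ℝ)) = d i := fun i => by simp [hd]
    simp only [hdd] at hentle
    have hmd0 : 0 ≤ ∑ i, g (σ i) * d i :=
      Finset.sum_nonneg fun i _ => mul_nonneg (hg0 _).le (hd0 i)
    have hlast : Real.log ((n + 1) * ((∑ i, g (σ i) * d i) + n) / n)
        ≤ Real.log ((n + 1) * (((n + ε * (1 + θ ^ 2 * N ^ 2 / 2)) / θ) + n) / n) := by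
      apply Real.log_le_log
      · positivity
      · apply div_le_div_of_nonneg_right _ hn'.le
        apply mul_le_mul_of_nonneg_left _ (by positivity)
        linarith
    have := mul_le_mul_of_nonneg_left hlast hn'.le
    linarith [hIle C hC lam]
  -- the limit
  have hlim : Tendsto (fun ε : ℝ => n * Real.log ((n + 1) *
      (((n + ε * (1 + θ ^ 2 * N ^ 2 / 2)) / θ) + n) / n) - Real.log (n.factorial)) (𝓝[>] 0)
      (𝓝 (n * Real.log ((n + 1) * (1 / θ + 1)) - Real.log (n.factorial))) := by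
    have h1 : (n : ℝ) * Real.log ((n + 1) * (1 / θ + 1)) - Real.log (n.factorial)
        = n * Real.log ((n + 1) * (((n + (0:ℝ) * (1 + θ ^ 2 * N ^ 2 / 2)) / θ) + n) / n)
          - Real.log (n.factorial) := by
      congr 3
      field_simp
      ring
    rw [h1]
    apply Tendsto.mono_left _ nhdsWithin_le_nhds
    apply ContinuousAt.tendsto (x := (0:ℝ)) (f := fun ε : ℝ => n * Real.log ((n + 1) *
      (((n + ε * (1 + θ ^ 2 * N ^ 2 / 2)) / θ) + n) / n) - Real.log (n.factorial))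
    apply ContinuousAt.sub _ continuousAt_const
    apply ContinuousAt.mul continuousAt_const
    apply ContinuousAt.log
    · fun_prop
    · have : (0:ℝ) < (n + 1) * (((n + (0:ℝ) * (1 + θ ^ 2 * N ^ 2 / 2)) / θ) + n) / n := by
        rw [zero_mul, add_zero]; positivity
      exact this.ne'
  exact ge_of_tendsto hlim (eventually_nhdsWithin_of_forall fun ε hε => key ε hε)

end Pool.Agent.helper63.NU
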